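import Mathlib

/-! Holomorphic families of resolvents from a sectorial form. -/

namespace Pool.Agent.Helper1.CLTd

open scoped ComplexConjugate InnerProductSpace

section Abstract

variable {D F : Type*} [NormedAddCommGroup D] [InnerProductSpace ℂ D] [CompleteSpace D]
  [NormedAddCommGroup F] [InnerProductSpace ℂ F] [CompleteSpace F]

/-- The operator of the form `‖H x‖^2 + ‖K x‖^2 + s^2 ‖G x‖^2`. -/
noncomputable def Lop (H K G : D →L[ℂ] F) (s : ℂ) : D →L[ℂ] D :=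
  ContinuousLinearMap.adjoint H ∘L H + ContinuousLinearMap.adjoint K ∘L K
    + s ^ 2 • (ContinuousLinearMap.adjoint G ∘L G)

lemma inner_Lop (H K G : D →L[ℂ] F) (s : ℂ) (y x : D) :
    inner ℂ y (Lop H K G s x)
      = inner ℂ (H y) (H x) + inner ℂ (K y) (K x) + s ^ 2 * inner ℂ (G y) (G x) := by
  simp only [Lop, add_apply, smul_apply,
    ContinuousLinearMap.comp_apply, inner_add_right, inner_smul_right,
    ContinuousLinearMap.adjoint_inner_right]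

lemma sector_aux (s : ℂ) (hs : 0 < s.re) (a b : ℝ) :
    s.re / ‖s‖ * (a + ‖s‖ ^ 2 * b) ≤ ‖(a : ℂ) + s ^ 2 * b‖ := by
  have hs0 : 0 < ‖s‖ := by
    rw [norm_pos_iff]; intro h; rw [h] at hs; simp at hs
  have key : s.re / ‖s‖ * (a + ‖s‖ ^ 2 * b)
      = ((conj s / (‖s‖ : ℂ)) * ((a : ℂ) + s ^ 2 * b)).re := by
    have e1 : (conj s / (‖s‖ : ℂ)) * ((a : ℂ) + s ^ 2 * b)
        = (a : ℂ) * (conj s / (‖s‖ : ℂ)) + ((‖s‖ : ℝ) : ℂ) * s * b := by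
      have e2 : conj s * s = ((‖s‖ : ℝ) : ℂ) ^ 2 := by
        rw [← Complex.normSq_eq_conj_mul_self, Complex.normSq_eq_norm_sq]; push_cast; rfl
      have hne : ((‖s‖ : ℝ) : ℂ) ≠ 0 := by exact_mod_cast hs0.ne'
      field_simp
      linear_combination (s * b) * e2
    rw [e1]
    have e3 : (a : ℂ) * (conj s / (‖s‖ : ℂ)) + ((‖s‖ : ℝ) : ℂ) * s * b
        = ((a / ‖s‖ : ℝ) : ℂ) * conj s + ((‖s‖ * b : ℝ) : ℂ) * s := by
      push_cast; ring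
    rw [e3, Complex.add_re, Complex.re_ofReal_mul, Complex.re_ofReal_mul, Complex.conj_re]
    field_simp
  rw [key]
  refine (Complex.re_le_norm _).trans ?_
  rw [norm_mul, norm_div, Complex.norm_conj, Complex.norm_real, norm_norm, div_self hs0.ne', one_mul]

lemma lower_Lop (H K G : D →L[ℂ] F) (s : ℂ) (hs : 0 < s.re) (x : D) :
    s.re / ‖s‖ * (‖H x‖ ^ 2 + ‖K x‖ ^ 2 + ‖s‖ ^ 2 * ‖G x‖ ^ 2)
      ≤ ‖inner ℂ x (Lop H K G s x)‖ := by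
  have h := sector_aux s hs (‖H x‖ ^ 2 + ‖K x‖ ^ 2) (‖G x‖ ^ 2)
  rw [inner_Lop, inner_self_eq_norm_sq_to_K, inner_self_eq_norm_sq_to_K, inner_self_eq_norm_sq_to_K]
  push_cast at h ⊢
  exact h

lemma isUnit_Lop (H K G : D →L[ℂ] F) (hn : ∀ x, ‖x‖ ^ 2 ≤ ‖H x‖ ^ 2 + ‖G x‖ ^ 2)
    (s : ℂ) (hs : 0 < s.re) : IsUnit (Lop H K G s) := by
  have hs0 : 0 < ‖s‖ := by
    rw [norm_pos_iff]; intro h; rw [h] at hs; simp at hs
  have hc : 0 < s.re / ‖s‖ * min 1 (‖s‖ ^ 2) := by positivity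
  refine ContinuousLinearMap.isUnit_of_forall_le_norm_inner_map _
    (c := ⟨s.re / ‖s‖ * min 1 (‖s‖ ^ 2), hc.le⟩) hc ?_
  intro x
  rw [norm_inner_symm]
  refine le_trans ?_ (lower_Lop H K G s hs x)
  have h1 := hn x
  have h2 : min 1 (‖s‖ ^ 2) ≤ 1 := min_le_left _ _
  have h3 : min 1 (‖s‖ ^ 2) ≤ ‖s‖ ^ 2 := min_le_right _ _
  have h4 : 0 < min 1 (‖s‖ ^ 2) := by positivity
  have h5 : ‖x‖ ^ 2 * min 1 (‖s‖ ^ 2) ≤ ‖H x‖ ^ 2 + ‖K x‖ ^ 2 + ‖s‖ ^ 2 * ‖G x‖ ^ 2 := by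
    have := sq_nonneg ‖K x‖
    have a1 : ‖x‖ ^ 2 * min 1 (‖s‖ ^ 2) ≤ (‖H x‖ ^ 2 + ‖G x‖ ^ 2) * min 1 (‖s‖ ^ 2) :=
      mul_le_mul_of_nonneg_right h1 h4.le
    have a2 : ‖H x‖ ^ 2 * min 1 (‖s‖ ^ 2) ≤ ‖H x‖ ^ 2 * 1 :=
      mul_le_mul_of_nonneg_left h2 (sq_nonneg _)
    have a3 : ‖G x‖ ^ 2 * min 1 (‖s‖ ^ 2) ≤ ‖G x‖ ^ 2 * ‖s‖ ^ 2 :=
      mul_le_mul_of_nonneg_left h3 (sq_nonneg _)
    nlinarith
  show ‖x‖ ^ 2 * (s.re / ‖s‖ * min 1 (‖s‖ ^ 2)) ≤ _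
  calc ‖x‖ ^ 2 * (s.re / ‖s‖ * min 1 (‖s‖ ^ 2))
      = s.re / ‖s‖ * (‖x‖ ^ 2 * min 1 (‖s‖ ^ 2)) := by ring
    _ ≤ _ := mul_le_mul_of_nonneg_left h5 (by positivity)

/-- The resolvent. -/
noncomputable def Top (H K G : D →L[ℂ] F) (s : ℂ) : F →L[ℂ] F :=
  G ∘L (Ring.inverse (Lop H K G s)) ∘L ContinuousLinearMap.adjoint G

lemma differentiable_Lop (H K G : D →L[ℂ] F) : Differentiable ℂ (Lop H K G) := by
  intro s
  unfold Lop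
  fun_prop

lemma differentiableOn_Top (H K G : D →L[ℂ] F) (hn : ∀ x, ‖x‖ ^ 2 ≤ ‖H x‖ ^ 2 + ‖G x‖ ^ 2) :
    DifferentiableOn ℂ (Top H K G) {s | 0 < s.re} := by
  intro s hs
  have h1 : DifferentiableAt ℂ (fun s => Ring.inverse (Lop H K G s)) s :=
    (differentiable_Lop H K G s).inverse (isUnit_Lop H K G hn s hs)
  apply DifferentiableAt.differentiableWithinAt
  unfold Top
  fun_prop

lemma exists_sol (H K G : D →L[ℂ] F) (hn : ∀ x, ‖x‖ ^ 2 ≤ ‖H x‖ ^ 2 + ‖G x‖ ^ 2)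
    (s : ℂ) (hs : 0 < s.re) (f : F) : ∃ x : D, G x = Top H K G s f ∧
      (∀ y, inner ℂ (H y) (H x) + inner ℂ (K y) (K x) + s ^ 2 * inner ℂ (G y) (G x)
        = inner ℂ (G y) f) ∧
      s.re / ‖s‖ * (‖H x‖ ^ 2 + ‖K x‖ ^ 2 + ‖s‖ ^ 2 * ‖G x‖ ^ 2) ≤ ‖inner ℂ (G x) f‖ := by
  have hu := isUnit_Lop H K G hn s hs
  refine ⟨Ring.inverse (Lop H K G s) (ContinuousLinearMap.adjoint G f), rfl, ?_⟩
  have h1 : Lop H K G s (Ring.inverse (Lop H K G s) (ContinuousLinearMap.adjoint G f))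
      = ContinuousLinearMap.adjoint G f := by
    have := Ring.mul_inverse_cancel _ hu
    calc _ = (Lop H K G s * Ring.inverse (Lop H K G s)) (ContinuousLinearMap.adjoint G f) := rfl
      _ = _ := by rw [this]; rfl
  refine ⟨fun y => ?_, ?_⟩
  · rw [← inner_Lop, h1, ContinuousLinearMap.adjoint_inner_right]
  · refine (lower_Lop H K G s hs _).trans ?_
    rw [h1, ContinuousLinearMap.adjoint_inner_right]

end Abstract

end Pool.Agent.Helper1.CLTd
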