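import Mathlib

/-! Hardy's inequality on the half line, with lintegrals. -/

namespace Pool.Agent.Helper1.CLTd

open MeasureTheory Set
open scoped ENNReal

lemma lint_rpow_neg_half (r : ℝ) (hr : 0 < r) :
    ∫⁻ t in Ioc (0 : ℝ) r, ENNReal.ofReal (t ^ (-(1 / 2) : ℝ)) = ENNReal.ofReal (2 * r ^ (1 / 2 : ℝ)) := by
  have hi : IntervalIntegrable (fun t : ℝ => t ^ (-(1 / 2) : ℝ)) volume 0 r :=
    intervalIntegral.intervalIntegrable_rpow' (by norm_num)
  have hi' : IntegrableOn (fun t : ℝ => t ^ (-(1 / 2) : ℝ)) (Ioc 0 r) volume := by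
    rwa [intervalIntegrable_iff_integrableOn_Ioc_of_le hr.le] at hi
  rw [← ofReal_integral_eq_lintegral_ofReal hi']
  · congr 1
    rw [← intervalIntegral.integral_of_le hr.le, integral_rpow (Or.inl (by norm_num))]
    norm_num
    ring
  · filter_upwards [ae_restrict_mem measurableSet_Ioc] with t ht
    exact Real.rpow_nonneg ht.1.le _

lemma lint_rpow_tail (t : ℝ) (ht : 0 < t) :
    ∫⁻ r in Ioi t, ENNReal.ofReal (2 * r ^ (-(3 / 2) : ℝ)) = ENNReal.ofReal (4 * t ^ (-(1 / 2) : ℝ)) := by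
  have hi' : IntegrableOn (fun t : ℝ => t ^ (-(3 / 2) : ℝ)) (Ioi t) volume :=
    integrableOn_Ioi_rpow_of_lt (by norm_num) ht
  rw [← ofReal_integral_eq_lintegral_ofReal (hi'.const_mul 2)]
  · congr 1
    rw [integral_const_mul, integral_Ioi_rpow_of_lt (by norm_num) ht]
    norm_num
    ring
  · filter_upwards [ae_restrict_mem measurableSet_Ioi] with r hr
    have : 0 < r := ht.trans hr
    positivity

lemma cs_step (h : ℝ → ℝ≥0∞) (hm : Measurable h) (r : ℝ) (hr : 0 < r) :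
    (∫⁻ t in Ioc (0 : ℝ) r, h t) ^ 2
      ≤ ENNReal.ofReal (2 * r ^ (1 / 2 : ℝ))
        * ∫⁻ t in Ioc (0 : ℝ) r, ENNReal.ofReal (t ^ (1 / 2 : ℝ)) * h t ^ 2 := by
  have hpq : (2 : ℝ).HolderConjugate 2 := by
    constructor <;> norm_num
  have key := ENNReal.lintegral_mul_le_Lp_mul_Lq (volume.restrict (Ioc (0 : ℝ) r)) hpq
    (f := fun t => ENNReal.ofReal (t ^ (-(1 / 4) : ℝ)))
    (g := fun t => ENNReal.ofReal (t ^ (1 / 4 : ℝ)) * h t)
    (by fun_prop) (by fun_prop)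
  have e1 : ∫⁻ t in Ioc (0 : ℝ) r, ((fun t => ENNReal.ofReal (t ^ (-(1 / 4) : ℝ))) *
      (fun t => ENNReal.ofReal (t ^ (1 / 4 : ℝ)) * h t)) t = ∫⁻ t in Ioc (0 : ℝ) r, h t := by
    apply setLIntegral_congr_fun measurableSet_Ioc
    intro t ht
    simp only [Pi.mul_apply]
    rw [← mul_assoc, ← ENNReal.ofReal_mul (Real.rpow_nonneg ht.1.le _), ← Real.rpow_add ht.1]
    norm_num
  have e2 : ∫⁻ t in Ioc (0 : ℝ) r, (fun t => ENNReal.ofReal (t ^ (-(1 / 4) : ℝ))) t ^ (2 : ℝ)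
      = ENNReal.ofReal (2 * r ^ (1 / 2 : ℝ)) := by
    rw [← lint_rpow_neg_half r hr]
    apply setLIntegral_congr_fun measurableSet_Ioc
    intro t ht
    simp only
    rw [ENNReal.ofReal_rpow_of_nonneg (Real.rpow_nonneg ht.1.le _) (by norm_num),
      ← Real.rpow_mul ht.1.le]
    norm_num
  have e3 : ∫⁻ t in Ioc (0 : ℝ) r, (fun t => ENNReal.ofReal (t ^ (1 / 4 : ℝ)) * h t) t ^ (2 : ℝ)
      = ∫⁻ t in Ioc (0 : ℝ) r, ENNReal.ofReal (t ^ (1 / 2 : ℝ)) * h t ^ 2 := by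
    apply setLIntegral_congr_fun measurableSet_Ioc
    intro t ht
    simp only
    rw [ENNReal.mul_rpow_of_nonneg _ _ (by norm_num : (0 : ℝ) ≤ 2),
      ENNReal.ofReal_rpow_of_nonneg (Real.rpow_nonneg ht.1.le _) (by norm_num),
      ← Real.rpow_mul ht.1.le, ENNReal.rpow_two]
    norm_num
  rw [e1, e2, e3] at key
  calc (∫⁻ t in Ioc (0 : ℝ) r, h t) ^ 2
      ≤ (ENNReal.ofReal (2 * r ^ (1 / 2 : ℝ)) ^ (1 / 2 : ℝ) *
        (∫⁻ t in Ioc (0 : ℝ) r, ENNReal.ofReal (t ^ (1 / 2 : ℝ)) * h t ^ 2) ^ (1 / 2 : ℝ)) ^ 2 := by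
        gcongr
    _ = _ := by
        rw [mul_pow, ← ENNReal.rpow_two, ← ENNReal.rpow_two, ← ENNReal.rpow_mul, ← ENNReal.rpow_mul]
        norm_num

/-- Hardy's inequality. -/
lemma hardy (h : ℝ → ℝ≥0∞) (hm : Measurable h) :
    ∫⁻ r in Ioi (0 : ℝ), (ENNReal.ofReal (1 / r) * ∫⁻ t in Ioc (0 : ℝ) r, h t) ^ 2
      ≤ 4 * ∫⁻ t in Ioi (0 : ℝ), h t ^ 2 := by
  have s1 : ∫⁻ r in Ioi (0 : ℝ), (ENNReal.ofReal (1 / r) * ∫⁻ t in Ioc (0 : ℝ) r, h t) ^ 2
      ≤ ∫⁻ r in Ioi (0 : ℝ), ∫⁻ t in Ioi (0 : ℝ), (if t ≤ r then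
        ENNReal.ofReal (2 * r ^ (-(3 / 2) : ℝ)) * (ENNReal.ofReal (t ^ (1 / 2 : ℝ)) * h t ^ 2)
          else 0) := by
    apply setLIntegral_mono' measurableSet_Ioi
    intro r hr
    have hr' : (0 : ℝ) < r := hr
    have e4 : ∫⁻ t in Ioi (0 : ℝ), (if t ≤ r then
        ENNReal.ofReal (2 * r ^ (-(3 / 2) : ℝ)) * (ENNReal.ofReal (t ^ (1 / 2 : ℝ)) * h t ^ 2)
          else 0) = ENNReal.ofReal (2 * r ^ (-(3 / 2) : ℝ)) *
            ∫⁻ t in Ioc (0 : ℝ) r, ENNReal.ofReal (t ^ (1 / 2 : ℝ)) * h t ^ 2 := by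
      rw [← lintegral_const_mul _ (by fun_prop)]
      have : (Ioc (0 : ℝ) r) = Ioi 0 ∩ Iic r := rfl
      rw [this, inter_comm, ← Measure.restrict_restrict measurableSet_Iic,
        ← lintegral_indicator measurableSet_Iic]
      rfl
    rw [e4, mul_pow]
    calc ENNReal.ofReal (1 / r) ^ 2 * (∫⁻ t in Ioc (0 : ℝ) r, h t) ^ 2
        ≤ ENNReal.ofReal (1 / r) ^ 2 * (ENNReal.ofReal (2 * r ^ (1 / 2 : ℝ))
        * ∫⁻ t in Ioc (0 : ℝ) r, ENNReal.ofReal (t ^ (1 / 2 : ℝ)) * h t ^ 2) := by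
          gcongr
          exact cs_step h hm r hr'
      _ = _ := by
          rw [← mul_assoc]
          congr 1
          rw [← ENNReal.ofReal_pow (by positivity), ← ENNReal.ofReal_mul (by positivity)]
          congr 1
          have : (-(3 / 2) : ℝ) = (1 / 2 : ℝ) + (-2 : ℝ) := by norm_num
          rw [this, Real.rpow_add hr', Real.rpow_neg hr'.le]
          have e5 : r ^ (2 : ℝ) = r ^ 2 := by exact_mod_cast Real.rpow_natCast r 2
          rw [e5]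
          field_simp
  refine s1.trans ?_
  rw [lintegral_lintegral_swap]
  · rw [← lintegral_const_mul _ (by fun_prop)]
    apply le_of_eq
    apply setLIntegral_congr_fun measurableSet_Ioi
    intro t ht
    have ht' : (0 : ℝ) < t := ht
    simp only
    have e6 : ∫⁻ r in Ioi (0 : ℝ), (if t ≤ r then
        ENNReal.ofReal (2 * r ^ (-(3 / 2) : ℝ)) * (ENNReal.ofReal (t ^ (1 / 2 : ℝ)) * h t ^ 2)
          else 0) = (∫⁻ r in Ioi t, ENNReal.ofReal (2 * r ^ (-(3 / 2) : ℝ))) *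
            (ENNReal.ofReal (t ^ (1 / 2 : ℝ)) * h t ^ 2) := by
      rw [← lintegral_mul_const _ (by fun_prop)]
      have : (Ici t) = Ioi 0 ∩ Ici t := by
        ext x; simp only [mem_Ici, mem_inter_iff, mem_Ioi]
        exact ⟨fun hx => ⟨ht'.trans_le hx, hx⟩, fun hx => hx.2⟩
      rw [setLIntegral_congr (Ioi_ae_eq_Ici (a := t)), this, inter_comm,
        ← Measure.restrict_restrict measurableSet_Ici,
        ← lintegral_indicator measurableSet_Ici]
      rfl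
    rw [e6, lint_rpow_tail t ht', ← mul_assoc, ← ENNReal.ofReal_mul (by positivity)]
    have e7 : 4 * t ^ (-(1 / 2) : ℝ) * t ^ (1 / 2 : ℝ) = 4 := by
      rw [mul_assoc, ← Real.rpow_add ht']; norm_num
    rw [e7]
    norm_num
  · apply Measurable.aemeasurable
    unfold Function.uncurry
    apply Measurable.ite
    · exact measurableSet_le measurable_snd measurable_fst
    · fun_prop
    · fun_prop

end Pool.Agent.Helper1.CLTd
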