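import Pool.Agent.Helper98.CLTd.Radial
import Pool.Agent.Helper1.CLTd.Abstract
import Pool.Agent.Helper1.CLTd.Hardy

/-! Resolvents of the radial operators, by a coercive form and Hardy's inequality. -/

namespace Pool.Agent.Helper1.CLTd

open MeasureTheory Set
open Pool.Agent.Helper98.CLTd
open scoped ComplexConjugate ENNReal InnerProductSpace

lemma ae_Ioc_of_ae {p : ℝ → Prop} (h : ∀ᵐ r ∂μ₀, p r) (r : ℝ) :
    ∀ᵐ t ∂(volume.restrict (Ioc (0 : ℝ) r)), p t :=
  ae_restrict_of_ae_restrict_of_subset (fun _ hx => hx.1) h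

lemma integrableOn_Ioc (h : E) (r : ℝ) : IntegrableOn (fun t => h t) (Ioc 0 r) volume := by
  have h1 : MemLp (fun t => h t) 2 (volume.restrict (Ioc (0 : ℝ) r)) :=
    (Lp.memLp h).mono_measure (Measure.restrict_mono (fun _ hx => hx.1) le_rfl)
  exact h1.integrable (by norm_num)

lemma stronglyMeasurable_prim (h : E) : StronglyMeasurable (fun r => ∫ t in Ioc 0 r, h t) := by
  have hh : StronglyMeasurable (fun t => h t) := Lp.stronglyMeasurable h
  have h1 : StronglyMeasurable (fun p : ℝ × ℝ => {q : ℝ × ℝ | 0 < q.2 ∧ q.2 ≤ q.1}.indicator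
      (fun q => h q.2) p) := by
    refine StronglyMeasurable.indicator (hh.comp_measurable measurable_snd) ?_
    exact (measurableSet_lt measurable_const measurable_snd).inter
      (measurableSet_le measurable_snd measurable_fst)
  have h2 := h1.integral_prod_right' (ν := (volume : Measure ℝ))
  convert h2 using 2 with r
  rw [← integral_indicator measurableSet_Ioc]
  rfl

/-- `(1/r) ∫_0^r h`. -/
noncomputable def hfun (h : ℝ → ℂ) (r : ℝ) : ℂ := (r : ℂ)⁻¹ * ∫ t in Ioc 0 r, h t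

lemma aesm_hfun (h : E) : AEStronglyMeasurable (hfun h) μ₀ := by
  apply StronglyMeasurable.aestronglyMeasurable
  unfold hfun
  refine StronglyMeasurable.mul ?_ (stronglyMeasurable_prim h)
  apply Measurable.stronglyMeasurable
  fun_prop

lemma eLpNorm_hfun_le (h : E) : eLpNorm (hfun h) 2 μ₀ ≤ 2 * eLpNorm h 2 μ₀ := by
  have hh : Measurable (fun t => ‖h t‖ₑ) := (Lp.stronglyMeasurable h).measurable.enorm
  have key := hardy (fun t => ‖h t‖ₑ) hh
  rw [eLpNorm_eq_lintegral_rpow_enorm_toReal (by norm_num) (by norm_num),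
    eLpNorm_eq_lintegral_rpow_enorm_toReal (by norm_num) (by norm_num)]
  simp only [ENNReal.toReal_ofNat, ENNReal.rpow_ofNat]
  have e1 : ∫⁻ r in Ioi (0 : ℝ), ‖hfun h r‖ₑ ^ 2 ≤ 4 * ∫⁻ t in Ioi (0 : ℝ), ‖h t‖ₑ ^ 2 := by
    refine le_trans ?_ key
    apply setLIntegral_mono' measurableSet_Ioi
    intro r hr
    have hr' : (0 : ℝ) < r := hr
    gcongr
    unfold hfun
    rw [enorm_mul]
    have e2 : ‖(r : ℂ)⁻¹‖ₑ = ENNReal.ofReal (1 / r) := by
      rw [← ofReal_norm, norm_inv, Complex.norm_real, Real.norm_of_nonneg hr'.le, one_div]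
    rw [e2]
    gcongr
    exact enorm_integral_le_lintegral_enorm _
  calc (∫⁻ r in Ioi (0 : ℝ), ‖hfun h r‖ₑ ^ 2) ^ (1 / 2 : ℝ)
      ≤ (4 * ∫⁻ t in Ioi (0 : ℝ), ‖h t‖ₑ ^ 2) ^ (1 / 2 : ℝ) := by gcongr
    _ = _ := by
      rw [ENNReal.mul_rpow_of_nonneg _ _ (by norm_num)]
      congr 1
      have : (4 : ℝ≥0∞) = 2 ^ (2 : ℝ) := by norm_num
      rw [this, ← ENNReal.rpow_mul]; norm_num

lemma memLp_hfun (h : E) : MemLp (hfun h) 2 μ₀ := by
  refine ⟨aesm_hfun h, ?_⟩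
  refine (eLpNorm_hfun_le h).trans_lt ?_
  exact ENNReal.mul_lt_top (by norm_num) (Lp.memLp h).2

lemma hfun_congr {f g : ℝ → ℂ} (h : f =ᵐ[μ₀] g) (r : ℝ) : hfun f r = hfun g r := by
  unfold hfun
  rw [integral_congr_ae (ae_Ioc_of_ae h r)]

/-- The Hardy operator. -/
noncomputable def Hd : E →L[ℂ] E :=
  LinearMap.mkContinuous
    { toFun := fun h => (memLp_hfun h).toLp _
      map_add' := by
        intro f g
        apply Lp.ext
        filter_upwards [MemLp.coeFn_toLp (memLp_hfun (f + g)), MemLp.coeFn_toLp (memLp_hfun f),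
          MemLp.coeFn_toLp (memLp_hfun g),
          Lp.coeFn_add ((memLp_hfun f).toLp _) ((memLp_hfun g).toLp _)] with r h1 h2 h3 h5
        rw [h5, Pi.add_apply, h1, h2, h3, hfun_congr (Lp.coeFn_add f g) r]
        unfold hfun
        simp only [Pi.add_apply]
        rw [integral_add (integrableOn_Ioc f r) (integrableOn_Ioc g r)]
        ring
      map_smul' := by
        intro c f
        apply Lp.ext
        filter_upwards [MemLp.coeFn_toLp (memLp_hfun (c • f)), MemLp.coeFn_toLp (memLp_hfun f),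
          Lp.coeFn_smul c ((memLp_hfun f).toLp _)] with r h1 h2 h5
        simp only [RingHom.id_apply]
        rw [h5, Pi.smul_apply, h1, h2, hfun_congr (Lp.coeFn_smul c f) r]
        unfold hfun
        simp only [Pi.smul_apply, smul_eq_mul]
        rw [integral_const_mul]
        ring }
    2 (by
      intro f
      simp only [LinearMap.coe_mk, AddHom.coe_mk]
      rw [Lp.norm_toLp, Lp.norm_def]
      have h2 : (2 : ℝ) * (eLpNorm f 2 μ₀).toReal = (2 * eLpNorm f 2 μ₀).toReal := by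
        rw [ENNReal.toReal_mul]; simp
      rw [h2]
      exact ENNReal.toReal_mono (ENNReal.mul_lt_top (by norm_num) (Lp.memLp f).2).ne
        (eLpNorm_hfun_le f))

lemma Hd_ae (h : E) : ∀ᵐ r ∂μ₀, Hd h r = (r : ℂ)⁻¹ * ∫ t in Ioc 0 r, h t :=
  MemLp.coeFn_toLp (memLp_hfun h)

lemma norm_Hd_le (h : E) : ‖Hd h‖ ≤ 2 * ‖h‖ := by
  refine (ContinuousLinearMap.le_opNorm _ _).trans ?_
  gcongr
  exact LinearMap.mkContinuous_norm_le _ (by norm_num) _

/-- `1/(1+r)` on `(0,∞)`. -/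
noncomputable def m1 (r : ℝ) : ℂ := (Ioi (0 : ℝ)).indicator (fun r => (((1 + r)⁻¹ : ℝ) : ℂ)) r
/-- `r/(1+r)` on `(0,∞)`. -/
noncomputable def m2 (r : ℝ) : ℂ := (Ioi (0 : ℝ)).indicator (fun r => ((r * (1 + r)⁻¹ : ℝ) : ℂ)) r
/-- indicator of `(-∞, l]`. -/
noncomputable def m3 (l r : ℝ) : ℂ := (Iic l).indicator (fun _ => (1 : ℂ)) r

lemma measurable_m1 : Measurable m1 := by
  unfold m1
  exact Measurable.indicator (by fun_prop) measurableSet_Ioi

lemma measurable_m2 : Measurable m2 := by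
  unfold m2
  exact Measurable.indicator (by fun_prop) measurableSet_Ioi

lemma measurable_m3 (l : ℝ) : Measurable (m3 l) := by
  unfold m3
  exact Measurable.indicator (by fun_prop) measurableSet_Iic

lemma norm_m1_le (r : ℝ) : ‖m1 r‖ ≤ 1 := by
  unfold m1
  by_cases h : r ∈ Ioi (0 : ℝ)
  · have hr : 0 < r := h
    rw [indicator_of_mem h, Complex.norm_real, Real.norm_of_nonneg (by positivity)]
    exact inv_le_one_of_one_le₀ (by linarith)
  · rw [indicator_of_notMem h]; simp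

lemma norm_m2_le (r : ℝ) : ‖m2 r‖ ≤ 1 := by
  unfold m2
  by_cases h : r ∈ Ioi (0 : ℝ)
  · have hr : 0 < r := h
    rw [indicator_of_mem h, Complex.norm_real, Real.norm_of_nonneg (by positivity)]
    rw [← div_eq_mul_inv, div_le_one (by linarith)]; linarith
  · rw [indicator_of_notMem h]; simp

lemma norm_m3_le (l r : ℝ) : ‖m3 l r‖ ≤ 1 := by
  unfold m3
  by_cases h : r ∈ Iic l
  · rw [indicator_of_mem h]; simp
  · rw [indicator_of_notMem h]; simp

/-- The form domain, as a closed subspace of `E × E`. -/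
noncomputable def Dsub (l : ℝ) : Submodule ℂ (WithLp 2 (E × E)) :=
  LinearMap.ker ((mulOp m1 ∘L WithLp.fstL 2 ℂ E E
    - mulOp m2 ∘L Hd ∘L WithLp.sndL 2 ℂ E E : WithLp 2 (E × E) →L[ℂ] E) :
      WithLp 2 (E × E) →ₗ[ℂ] E)
  ⊓ LinearMap.ker ((mulOp (m3 l) ∘L WithLp.sndL 2 ℂ E E : WithLp 2 (E × E) →L[ℂ] E) :
      WithLp 2 (E × E) →ₗ[ℂ] E)

lemma isClosed_Dsub (l : ℝ) : IsClosed (Dsub l : Set (WithLp 2 (E × E))) := by
  unfold Dsub
  rw [Submodule.coe_inf]
  exact (ContinuousLinearMap.isClosed_ker _).inter (ContinuousLinearMap.isClosed_ker _)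

instance (l : ℝ) : CompleteSpace (Dsub l) := (isClosed_Dsub l).completeSpace_coe

lemma mem_Dsub_iff (l : ℝ) (g h : E) : WithLp.toLp 2 (g, h) ∈ Dsub l ↔ InForm l g h := by
  unfold Dsub InForm
  rw [Submodule.mem_inf, LinearMap.mem_ker, LinearMap.mem_ker]
  apply and_congr
  · have e0 : ((mulOp m1 ∘L WithLp.fstL 2 ℂ E E
        - mulOp m2 ∘L Hd ∘L WithLp.sndL 2 ℂ E E : WithLp 2 (E × E) →L[ℂ] E) :
        WithLp 2 (E × E) →ₗ[ℂ] E) (WithLp.toLp 2 (g, h)) = mulOp m1 g - mulOp m2 (Hd h) := rfl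
    rw [e0, sub_eq_zero]
    constructor
    · intro h0
      filter_upwards [mulOp_ae measurable_m1 norm_m1_le g,
        mulOp_ae measurable_m2 norm_m2_le (Hd h), Hd_ae h, ae_restrict_mem measurableSet_Ioi]
        with r h1 h2 h3 hr
      have hr' : (0 : ℝ) < r := hr
      rw [h0, h2, h3] at h1
      unfold m1 m2 at h1
      rw [indicator_of_mem hr, indicator_of_mem hr] at h1
      have a1 : (r : ℂ) ≠ 0 := by exact_mod_cast hr'.ne'
      have a2 : (1 + (r : ℂ)) ≠ 0 := by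
        have : (1 + r : ℝ) ≠ 0 := by positivity
        exact_mod_cast this
      push_cast at h1
      field_simp at h1
      exact h1.symm
    · intro h0
      apply Lp.ext
      filter_upwards [mulOp_ae measurable_m1 norm_m1_le g,
        mulOp_ae measurable_m2 norm_m2_le (Hd h), Hd_ae h, ae_restrict_mem measurableSet_Ioi, h0]
        with r h1 h2 h3 hr h4
      have hr' : (0 : ℝ) < r := hr
      rw [h1, h2, h3, h4]
      unfold m1 m2
      rw [indicator_of_mem hr, indicator_of_mem hr]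
      have a1 : (r : ℂ) ≠ 0 := by exact_mod_cast hr'.ne'
      have a2 : (1 + (r : ℂ)) ≠ 0 := by
        have : (1 + r : ℝ) ≠ 0 := by positivity
        exact_mod_cast this
      push_cast
      field_simp
  · have e0 : ((mulOp (m3 l) ∘L WithLp.sndL 2 ℂ E E : WithLp 2 (E × E) →L[ℂ] E) :
        WithLp 2 (E × E) →ₗ[ℂ] E) (WithLp.toLp 2 (g, h)) = mulOp (m3 l) h := rfl
    rw [e0]
    constructor
    · intro h0
      filter_upwards [mulOp_ae (measurable_m3 l) (norm_m3_le l) h, Lp.coeFn_zero ℂ 2 μ₀]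
        with r h1 h2 hr
      rw [h0, h2] at h1
      unfold m3 at h1
      rw [indicator_of_mem (show r ∈ Iic l from hr)] at h1
      simpa using h1.symm
    · intro h0
      apply Lp.ext
      filter_upwards [mulOp_ae (measurable_m3 l) (norm_m3_le l) h, Lp.coeFn_zero ℂ 2 μ₀, h0]
        with r h1 h2 h3
      rw [h1, h2]
      unfold m3
      by_cases hr : r ∈ Iic l
      · rw [indicator_of_mem hr, h3 hr]; simp
      · rw [indicator_of_notMem hr]; simp

/-- The derivative. -/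
noncomputable def Hop (l : ℝ) : Dsub l →L[ℂ] E := WithLp.sndL 2 ℂ E E ∘L (Dsub l).subtypeL
/-- The embedding. -/
noncomputable def Gop (l : ℝ) : Dsub l →L[ℂ] E := WithLp.fstL 2 ℂ E E ∘L (Dsub l).subtypeL
/-- the multiplier `r √Q`. -/
noncomputable def mK (Q : ℝ → ℝ) (r : ℝ) : ℂ :=
  (Ioi (0 : ℝ)).indicator (fun r => ((r * √(Q r) : ℝ) : ℂ)) r
/-- Multiplication by `√Q`. -/
noncomputable def Kop (l : ℝ) (Q : ℝ → ℝ) : Dsub l →L[ℂ] E := mulOp (mK Q) ∘L Hd ∘L Hop l

lemma measurable_mK (Q : ℝ → ℝ) (hQm : Measurable Q) : Measurable (mK Q) := by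
  unfold mK
  exact Measurable.indicator (by fun_prop) measurableSet_Ioi

lemma norm_mK_le (Q : ℝ → ℝ) (hQ0 : ∀ r, 0 < r → 0 ≤ Q r) (C : ℝ)
    (hQ : ∀ r, 0 < r → Q r ≤ C / r ^ 2) (r : ℝ) : ‖mK Q r‖ ≤ √C := by
  unfold mK
  by_cases h : r ∈ Ioi (0 : ℝ)
  · have hr : 0 < r := h
    rw [indicator_of_mem h, Complex.norm_real, Real.norm_of_nonneg (by positivity)]
    apply Real.le_sqrt_of_sq_le
    rw [mul_pow, Real.sq_sqrt (hQ0 r hr)]
    have := hQ r hr
    rw [le_div_iff₀ (by positivity)] at this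
    linarith
  · rw [indicator_of_notMem h]; simp

lemma inForm_of_mem (l : ℝ) (x : Dsub l) : InForm l (Gop l x) (Hop l x) := by
  rw [← mem_Dsub_iff]
  exact x.2

lemma Kop_ae (l : ℝ) (Q : ℝ → ℝ) (hQm : Measurable Q) (hQ0 : ∀ r, 0 < r → 0 ≤ Q r) (C : ℝ)
    (hQ : ∀ r, 0 < r → Q r ≤ C / r ^ 2) (x : Dsub l) :
    ∀ᵐ r ∂μ₀, Kop l Q x r = (√(Q r) : ℂ) * Gop l x r := by
  filter_upwards [mulOp_ae (measurable_mK Q hQm) (norm_mK_le Q hQ0 C hQ) (Hd (Hop l x)),
    Hd_ae (Hop l x), (inForm_of_mem l x).1, ae_restrict_mem measurableSet_Ioi] with r h1 h2 h3 hr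
  have hr' : (0 : ℝ) < r := hr
  have e : Kop l Q x = mulOp (mK Q) (Hd (Hop l x)) := rfl
  rw [e, h1, h2, h3]
  unfold mK
  rw [indicator_of_mem hr]
  have a1 : (r : ℂ) ≠ 0 := by exact_mod_cast hr'.ne'
  push_cast
  field_simp

lemma norm_sq_Dsub (l : ℝ) (x : Dsub l) : ‖x‖ ^ 2 = ‖Hop l x‖ ^ 2 + ‖Gop l x‖ ^ 2 := by
  have h1 : ‖x‖ = ‖(x : WithLp 2 (E × E))‖ := rfl
  rw [h1, WithLp.prod_norm_sq_eq_of_L2, add_comm]
  rfl

lemma coeFn_star' (f : E) : ∀ᵐ r ∂μ₀, (star f : E) r = conj (f r) := by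
  filter_upwards [Lp.coeFn_star f] with r hr
  rw [hr]; rfl

lemma inForm_star (l : ℝ) (g h : E) (hgh : InForm l g h) : InForm l (star g) (star h) := by
  refine ⟨?_, ?_⟩
  · filter_upwards [hgh.1, coeFn_star' g] with r h1 h2
    rw [h2, h1, ← integral_conj]
    exact (integral_congr_ae (ae_Ioc_of_ae (coeFn_star' h) r)).symm
  · filter_upwards [hgh.2, coeFn_star' h] with r h1 h2 h3
    rw [h2, h1 h3]; simp

lemma inner_E (f g : E) : inner ℂ f g = ∫ r in Ioi (0 : ℝ), g r * conj (f r) := by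
  rw [MeasureTheory.L2.inner_def]
  rfl

lemma integrable_E (f g : E) : Integrable (fun r => g r * conj (f r)) μ₀ := by
  have := MeasureTheory.L2.integrable_inner (𝕜 := ℂ) f g
  exact this

lemma inner_mulOp_wR (R : ℝ) (f g : E) :
    inner ℂ f (mulOp (wR R) g) = inner ℂ (mulOp (wR R) f) g := by
  rw [inner_E, inner_E]
  apply integral_congr_ae
  filter_upwards [mulOp_ae (measurable_wR R) (norm_wR_le R) f,
    mulOp_ae (measurable_wR R) (norm_wR_le R) g] with r h1 h2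
  rw [h1, h2, map_mul]
  have : conj (wR R r) = wR R r := by
    unfold wR
    by_cases h : r ∈ Icc (1 : ℝ) R
    · rw [indicator_of_mem h, Complex.conj_ofReal]
    · rw [indicator_of_notMem h]; simp
  rw [this]; ring

lemma norm_mulOp_wR_G (R l : ℝ) (x : Dsub l) : ‖mulOp (wR R) (Gop l x)‖ ≤ 2 * ‖Hop l x‖ := by
  refine le_trans ?_ (norm_Hd_le (Hop l x))
  apply Lp.norm_le_norm_of_ae_le
  filter_upwards [mulOp_ae (measurable_wR R) (norm_wR_le R) (Gop l x), Hd_ae (Hop l x),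
    (inForm_of_mem l x).1, ae_restrict_mem measurableSet_Ioi] with r h1 h2 h3 hr
  have hr' : (0 : ℝ) < r := hr
  rw [h1, h2, h3, norm_mul, norm_mul]
  apply mul_le_mul_of_nonneg_right _ (norm_nonneg _)
  unfold wR
  rw [norm_inv, Complex.norm_real, Real.norm_of_nonneg hr'.le]
  by_cases h : r ∈ Icc (1 : ℝ) R
  · rw [indicator_of_mem h, Complex.norm_real, Real.norm_of_nonneg (by positivity), one_div]
  · rw [indicator_of_notMem h]; simp only [norm_zero]; positivity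

theorem resolvent_family (l : ℝ) (_hl : 0 ≤ l) (Q : ℝ → ℝ) (hQm : Measurable Q)
    (hQ0 : ∀ r, 0 < r → 0 ≤ Q r) (C : ℝ) (hQ : ∀ r, 0 < r → Q r ≤ C / r ^ 2) (R : ℝ) :
    ∃ T : ℂ → (E →L[ℂ] E), DifferentiableOn ℂ T {s | 0 < s.re} ∧
      ∀ s : ℂ, 0 < s.re →
        ‖(mulOp (wR R)) ∘L (T s) ∘L (mulOp (wR R))‖ ≤ 4 * (‖s‖ / s.re) ∧
        ‖T s‖ ≤ 1 / (‖s‖ * s.re) ∧
        ∀ F : E, ∃ h : E, InForm l (T s F) h ∧ ∀ η η' : E, InForm l η η' →
          (∫ r in Ioi (0 : ℝ), h r * η' r)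
              + (∫ r in Ioi (0 : ℝ), ((Q r : ℂ) + s ^ 2) * T s F r * η r)
            = ∫ r in Ioi (0 : ℝ), F r * η r := by
  have hn : ∀ x : Dsub l, ‖x‖ ^ 2 ≤ ‖Hop l x‖ ^ 2 + ‖Gop l x‖ ^ 2 := fun x =>
    (norm_sq_Dsub l x).le
  refine ⟨Top (Hop l) (Kop l Q) (Gop l), differentiableOn_Top _ _ _ hn, ?_⟩
  intro s hs
  have hs0 : 0 < ‖s‖ := by
    rw [norm_pos_iff]; intro h; rw [h] at hs; simp at hs
  refine ⟨?_, ?_, ?_⟩
  · apply ContinuousLinearMap.opNorm_le_bound _ (by positivity)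
    intro φ
    obtain ⟨x, hx1, -, hx3⟩ := exists_sol (Hop l) (Kop l Q) (Gop l) hn s hs (mulOp (wR R) φ)
    simp only [ContinuousLinearMap.comp_apply]
    rw [← hx1]
    have h1 := norm_mulOp_wR_G R l x
    have h2 : s.re / ‖s‖ * ‖Hop l x‖ ^ 2 ≤ 2 * ‖Hop l x‖ * ‖φ‖ := by
      calc s.re / ‖s‖ * ‖Hop l x‖ ^ 2
          ≤ s.re / ‖s‖ * (‖Hop l x‖ ^ 2 + ‖Kop l Q x‖ ^ 2 + ‖s‖ ^ 2 * ‖Gop l x‖ ^ 2) := by
            apply mul_le_mul_of_nonneg_left _ (by positivity)
            nlinarith [sq_nonneg ‖Kop l Q x‖, mul_nonneg (sq_nonneg ‖s‖) (sq_nonneg ‖Gop l x‖)]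
        _ ≤ _ := hx3
        _ = ‖inner ℂ (mulOp (wR R) (Gop l x)) φ‖ := by rw [inner_mulOp_wR]
        _ ≤ ‖mulOp (wR R) (Gop l x)‖ * ‖φ‖ := norm_inner_le_norm _ _
        _ ≤ _ := mul_le_mul_of_nonneg_right h1 (norm_nonneg _)
    have h3 : ‖Hop l x‖ ≤ 2 * (‖s‖ / s.re) * ‖φ‖ := by
      rcases (norm_nonneg (Hop l x)).eq_or_lt with h0 | h0
      · rw [← h0]; positivity
      · have h4 : s.re / ‖s‖ * ‖Hop l x‖ ≤ 2 * ‖φ‖ := by
          by_contra hcon
          rw [not_le] at hcon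
          have := mul_lt_mul_of_pos_right hcon h0
          nlinarith
        calc ‖Hop l x‖ = (‖s‖ / s.re) * (s.re / ‖s‖ * ‖Hop l x‖) := by field_simp
          _ ≤ (‖s‖ / s.re) * (2 * ‖φ‖) := mul_le_mul_of_nonneg_left h4 (by positivity)
          _ = _ := by ring
    calc _ ≤ 2 * ‖Hop l x‖ := h1
      _ ≤ 2 * (2 * (‖s‖ / s.re) * ‖φ‖) := by gcongr
      _ = _ := by ring
  · apply ContinuousLinearMap.opNorm_le_bound _ (by positivity)
    intro φ
    obtain ⟨x, hx1, -, hx3⟩ := exists_sol (Hop l) (Kop l Q) (Gop l) hn s hs φ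
    rw [← hx1]
    have h2 : s.re * ‖s‖ * ‖Gop l x‖ ^ 2 ≤ ‖Gop l x‖ * ‖φ‖ := by
      calc s.re * ‖s‖ * ‖Gop l x‖ ^ 2 = s.re / ‖s‖ * (‖s‖ ^ 2 * ‖Gop l x‖ ^ 2) := by field_simp
        _ ≤ s.re / ‖s‖ * (‖Hop l x‖ ^ 2 + ‖Kop l Q x‖ ^ 2 + ‖s‖ ^ 2 * ‖Gop l x‖ ^ 2) := by
            apply mul_le_mul_of_nonneg_left _ (by positivity)
            nlinarith [sq_nonneg ‖Kop l Q x‖, sq_nonneg ‖Hop l x‖]
        _ ≤ _ := hx3
        _ ≤ _ := norm_inner_le_norm _ _
    rcases (norm_nonneg (Gop l x)).eq_or_lt with h0 | h0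
    · rw [← h0]; positivity
    · have h4 : s.re * ‖s‖ * ‖Gop l x‖ ≤ ‖φ‖ := by
        by_contra hcon
        rw [not_le] at hcon
        have := mul_lt_mul_of_pos_right hcon h0
        nlinarith
      rw [one_div, inv_mul_eq_div, le_div_iff₀ (by positivity)]
      linarith
  · intro F
    obtain ⟨x, hx1, hx2, -⟩ := exists_sol (Hop l) (Kop l Q) (Gop l) hn s hs F
    refine ⟨Hop l x, ?_, ?_⟩
    · rw [← hx1]; exact inForm_of_mem l x
    · intro η η' hη
      rw [← hx1]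
      have hy : WithLp.toLp 2 (star η, star η') ∈ Dsub l := by
        rw [mem_Dsub_iff]; exact inForm_star l η η' hη
      have h1 := hx2 ⟨_, hy⟩
      set y : Dsub l := ⟨_, hy⟩ with hydef
      have hGy : Gop l y = star η := rfl
      have hHy : Hop l y = star η' := rfl
      have e1 : inner ℂ (Hop l y) (Hop l x) = ∫ r in Ioi (0 : ℝ), Hop l x r * η' r := by
        rw [inner_E, hHy]
        apply integral_congr_ae
        filter_upwards [coeFn_star' η'] with r hr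
        rw [hr, Complex.conj_conj]
      have e2 : inner ℂ (Gop l y) F = ∫ r in Ioi (0 : ℝ), F r * η r := by
        rw [inner_E, hGy]
        apply integral_congr_ae
        filter_upwards [coeFn_star' η] with r hr
        rw [hr, Complex.conj_conj]
      have e3 : inner ℂ (Kop l Q y) (Kop l Q x) + s ^ 2 * inner ℂ (Gop l y) (Gop l x)
          = ∫ r in Ioi (0 : ℝ), ((Q r : ℂ) + s ^ 2) * Gop l x r * η r := by
        rw [inner_E, inner_E, ← integral_const_mul, ← integral_add (integrable_E _ _)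
          ((integrable_E _ _).const_mul _)]
        apply integral_congr_ae
        filter_upwards [coeFn_star' η, Kop_ae l Q hQm hQ0 C hQ x, Kop_ae l Q hQm hQ0 C hQ y,
          ae_restrict_mem measurableSet_Ioi] with r h2 h3 h4 hr
        rw [h3, h4, hGy, h2, map_mul, Complex.conj_conj, Complex.conj_ofReal]
        have h5 : ((√(Q r) : ℝ) : ℂ) * ((√(Q r) : ℝ) : ℂ) = (Q r : ℂ) := by
          rw [← Complex.ofReal_mul, Real.mul_self_sqrt (hQ0 r hr)]
        linear_combination (Gop l x r * η r) * h5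
      rw [← e1, ← e2, ← e3, ← h1]
      ring

end Pool.Agent.Helper1.CLTd
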